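import Pool.Agent.Q84.OT2

set_option autoImplicit false

/-!
# Cunningham chains of both kinds: times which recur simultaneously

For an affine map `n ↦ D n + e` (`D = 2`, `e = 1` or `e = -1` for the chains of the first and of the second kind)
call `j` a recurring time of level `T` if for every `η > 0` and arbitrarily large `x` there are at least
`x ^ (1 - η)` primes `p ≤ x` such that the term at time `j` of the orbit `p, D p + e, …` of `p` is the next prime
of the orbit, and moreover the `T` terms after time `j` are not prime and `p` is not a term at a time `1, …, T`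
of the orbit of a prime.

Let finitely many maps `n ↦ D_j n + e_j` with multipliers `A_j ≥ 1`, `j < r`, be given; for instance
(`r = 2 t`) the two maps `n ↦ 2 n + 1`, `n ↦ 2 n - 1` with the multipliers `1, 2, …, t`. Let
`R = 1 + r + r ^ 2 + … + r ^ (2 r)` (so `R = 31` for the two kinds of chains, `t = 1`). There are `M` and `C`
such that for EVERY multiple `N` of `M`

* in every sufficiently long window, for a proportion of at least `1 / R - ε` of the `k`, ALL the numbers
  `A_j N k` are recurring times of level `T` of their maps;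
* for all but a proportion `ε` of the `k` in every sufficiently long window this holds for one of
  `k, 2 k, …, R k`;
* every set of at least `C` integers contains two elements whose difference is such a `k`.

Proof: the coloured Maynard-Tao theorem for orbits and four classes (`Pool.Agent.Y862.consecM`); the pairs of
positions whose difference is bad are coloured by a `j` which is responsible for it, and after Ramsey's theorem
inside the classes the colour depends only on the pair of classes; a graph on `R + 1` vertices with `r` colours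
has four vertices with one colour.
-/

namespace Pool.Agent.Results.MP_c183ae_nt.BothKindsSimultaneously

open Finset Filter

/-- the `j`-th term of the orbit of `p` under `n ↦ D n + e` (for `D ≥ 2`, `e > -D` and `p ≥ 1` all terms
are positive) -/
def orb (D : ℕ) (e : ℤ) (p j : ℕ) : ℕ := ((fun x : ℤ => D * x + e)^[j] (p : ℤ)).toNat

/-- `j` is a recurring time of level `T` for the map `n ↦ D n + e` -/
def Time (D : ℕ) (e : ℤ) (T j : ℕ) : Prop :=
  ∀ η : ℝ, 0 < η → ∃ᶠ x : ℝ in atTop,
    x ^ (1 - η) ≤ ({p : ℕ | (p : ℝ) ≤ x ∧ p.Prime ∧ (orb D e p j).Prime ∧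
      (∀ l, 0 < l → l < j → ¬ (orb D e p l).Prime) ∧
      ∀ l, 0 < l → l ≤ T → ¬ (orb D e p (j + l)).Prime ∧
        ∀ q : ℕ, q.Prime → orb D e q l ≠ p}.ncard : ℝ)

/-- `1 + r + r ^ 2 + … + r ^ (2 r)` -/
def R (r : ℕ) : ℕ := ∑ i ∈ range (2 * r + 1), r ^ i

/-- **Recurring times of finitely many affine maps, all at once.** -/
theorem result (r : ℕ) (hr : 0 < r) (D A : Fin r → ℕ) (e : Fin r → ℤ) (hD : ∀ j, 2 ≤ D j)
    (he0 : ∀ j, e j ≠ 0) (he : ∀ j, -(D j : ℤ) < e j) (hcop : ∀ j, IsCoprime (e j) (D j : ℤ))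
    (hA : ∀ j, 0 < A j) (T : ℕ) :
    ∃ M C : ℕ, 0 < M ∧ ∀ N : ℕ, 0 < N → M ∣ N →
      (∀ ε : ℝ, 0 < ε → ∃ L : ℕ, ∀ l : ℕ, L ≤ l → ∀ u : ℕ,
        (1 / (R r : ℝ) - ε) * (l : ℝ) ≤ ({k : ℕ | u < k ∧ k ≤ u + l ∧
          ∀ j, Time (D j) (e j) T (A j * (N * k))}.ncard : ℝ)) ∧
      (∀ ε : ℝ, 0 < ε → ∃ L : ℕ, ∀ l : ℕ, L ≤ l → ∀ u : ℕ,
        ({k : ℕ | u < k ∧ k ≤ u + l ∧ ¬ ∃ d, 1 ≤ d ∧ d ≤ R r ∧
          ∀ j, Time (D j) (e j) T (A j * (N * (d * k)))}.ncard : ℝ) ≤ ε * l) ∧
      ∀ W : Finset ℕ, C ≤ W.card → ∃ w ∈ W, ∃ w' ∈ W, w < w' ∧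
        ∀ j, Time (D j) (e j) T (A j * (N * (w' - w))) :=
  Pool.Agent.Q84.OT.simul r hr D A e hD he0 he hcop hA T

end Pool.Agent.Results.MP_c183ae_nt.BothKindsSimultaneously
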