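import Pool.Agent.Q117.LF.Cnt

/-!
MP_c183ae_nt (Cunningham chains of both kinds): at one `N` the chains `2^l N - 1` (first kind) and `2^l N + 1` (second kind), `l < k`, of almost
primes, one of the `2 k` terms prime, another one a prime or a product of two large primes, and EVERY other integer within the scale of Rankin of one of
the numbers `2^l N`, `l ≤ k`, composite with a small prime factor.
-/

set_option autoImplicit false

namespace Pool.Agent.Results.MP_c183ae_nt.IsolatedDoubleChains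

/-- the scale of Rankin -/
noncomputable def R (X : ℝ) : ℝ :=
  Real.log X * Real.log (Real.log X) * Real.log (Real.log (Real.log (Real.log X))) / (Real.log (Real.log (Real.log X))) ^ 2

/-- all prime factors of `m` are `> z` (so `0` is not rough) -/
def Rough (z : ℝ) (m : ℤ) : Prop := ∀ p : ℕ, p.Prime → (p : ℤ) ∣ m → z < p

/-- at most two prime factors (with multiplicity), all `> z` -/
def AtMostTwo (z : ℝ) (m : ℤ) : Prop := m.natAbs.primeFactorsList.length ≤ 2 ∧ Rough z m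

/-- the term `l` of the chain of the first kind (`ε = -1`) or of the second kind (`ε = 1`) -/
def term (l : ℕ) (ε : ℤ) (N : ℕ) : ℤ := 2 ^ l * (N : ℤ) + ε

theorem term_succ (l : ℕ) (ε : ℤ) (N : ℕ) : term (l + 1) ε N = 2 * term l ε N - ε := by
  unfold term
  ring

/-- both chains of length `k` are free of prime factors `≤ X^(1/t)`, and every integer within `D` of one of the `2^l N`, `l ≤ k`, which is not one of
their terms has a prime factor `≤ log X` -/
def Isolated (k t : ℕ) (X D : ℝ) (N : ℕ) : Prop :=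
  (∀ l < k, Rough (X ^ (1 / (t : ℝ))) (term l (-1) N) ∧ Rough (X ^ (1 / (t : ℝ))) (term l 1 N)) ∧
    ∀ l ≤ k, ∀ s : ℤ, |(s : ℝ)| ≤ D → (l = k ∨ (s ≠ 1 ∧ s ≠ -1)) → ¬ Rough (Real.log X) (term l s N)

theorem result : ∀ k : ℕ, ∃ t : ℕ, 1 ≤ t ∧ ∃ c : ℝ, 0 < c ∧ ∃ X0 : ℝ, ∀ X : ℝ, X0 ≤ X →
    ∀ i < k, ∀ j < k, ∀ ε η : ℤ, (ε = 1 ∨ ε = -1) → (η = 1 ∨ η = -1) → ¬ (i = j ∧ ε = η) →
    X ^ (99 / 100 : ℝ) ≤ ({N : ℕ | X < N ∧ (N : ℝ) ≤ 2 * X ∧ (term i ε N).natAbs.Prime ∧ AtMostTwo (X ^ (1 / 8 : ℝ)) (term j η N) ∧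
      Isolated k t X (c * R X) N}.ncard : ℝ) := by
  intro k
  obtain ⟨t, ht, c, hc, X0, h⟩ := Pool.Agent.Q117.LF.t9 Pool.Agent.Q117.LF.famC k
  refine ⟨t, ht, c, hc, max X0 0, fun X hX i hi j hj ε η hε hη h1 => ?_⟩
  have hX0 : (0 : ℝ) ≤ X := (le_max_right _ _).trans hX
  exact Pool.Agent.Q117.LF.cnt hX0 _ _ (h X ((le_max_left _ _).trans hX) i hi j hj ε η hε hη h1)

end Pool.Agent.Results.MP_c183ae_nt.IsolatedDoubleChains
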