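import Pool.Agent.Q120.GM.ChainLow
import Pool.Agent.Q120.GM.Exists

/-!
# The longest Cunningham chains in the sieved models of the primes

`Q` is the level: the random set contains each `n` coprime to `Q` independently with
probability `min(1, (Q/φ(Q))/log n)`, and no other `n`. For `Q = 1` this is the model of Cramér.

`aff a b n = a n + b`; a chain of length `k` from `n` is `n, f n, …, f^(k-1) n`, all in the set.
Chains of the first kind: `a = 2, b = 1`; of the second kind: `a = 2, b = -1`.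

Almost surely, for all maps `n ↦ a n + b` (`a ≥ 2`) for which some class modulo `Q` never meets an
integer which is not coprime to `Q`: the length `L(x)` of the longest chain from a starting point
`2|b| < n ≤ x` satisfies `log x / L(x) = log log x - log (Q/φ(Q)) + o(1)`, and the number of the
`n ≤ x` with a chain of length at least `θ log n / log log n` is `x^(1-θ+o(1))`, for all `0 < θ < 1`.
For the other maps all chains have length at most `Q`.
-/

set_option autoImplicit false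

namespace Pool.Agent.Results.MP_c183ae_nt.LongestChains

open MeasureTheory Filter Pool.Agent.Q120.GM

/-- The map `n ↦ a n + b`. -/
def aff (a : ℕ) (b : ℤ) (n : ℕ) : ℕ := ((a : ℤ) * n + b).toNat

/-- The points from `n` to the `k`-th iterate are in `S`. -/
def Chain (S : Set ℕ) (f : ℕ → ℕ) (n k : ℕ) : Prop := ∀ i < k, f^[i] n ∈ S

/-- Some class modulo `Q` has orbits all of whose points are coprime to `Q`. -/
def Open (Q a : ℕ) (b : ℤ) : Prop :=
  ∃ r : ℕ, ∀ n : ℕ, 2 * b.natAbs < n → n % Q = r % Q → ∀ i, ((aff a b)^[i] n).Coprime Q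

/-- The law of the longest chains. -/
structure Law (S : Set ℕ) (Q a : ℕ) (b : ℤ) : Prop where
  upper : ∀ ε : ℝ, 0 < ε → ∀ᶠ x : ℕ in atTop, ∀ n k : ℕ, 2 * b.natAbs < n → n ≤ x → Chain S (aff a b) n k →
    k * (Real.log (Real.log x) - Real.log ((Q : ℝ) / Nat.totient Q) - ε) ≤ Real.log x
  lower : ∀ ε : ℝ, 0 < ε → ∀ᶠ x : ℕ in atTop, ∃ n k : ℕ, 2 * b.natAbs < n ∧ n ≤ x ∧ Chain S (aff a b) n k ∧
    Real.log x ≤ k * (Real.log (Real.log x) - Real.log ((Q : ℝ) / Nat.totient Q) + ε)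
  spectrum : ∀ θ : ℝ, 0 < θ → θ < 1 → ∀ δ : ℝ, 0 < δ → ∀ᶠ x : ℕ in atTop,
    (x : ℝ) ^ (1 - θ - δ) ≤ (Set.ncard {n : ℕ | 2 * b.natAbs < n ∧ n ≤ x ∧
      ∃ k : ℕ, θ * (Real.log n / Real.log (Real.log n)) ≤ k ∧ Chain S (aff a b) n k} : ℝ) ∧
    (Set.ncard {n : ℕ | 2 * b.natAbs < n ∧ n ≤ x ∧
      ∃ k : ℕ, θ * (Real.log n / Real.log (Real.log n)) ≤ k ∧ Chain S (aff a b) n k} : ℝ) ≤ (x : ℝ) ^ (1 - θ + δ)

theorem aff_int {a : ℕ} (ha : 2 ≤ a) {b : ℤ} {n : ℕ} (hn : 2 * b.natAbs + 1 ≤ n) : ((aff a b n : ℕ) : ℤ) = a * n + b := by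
  unfold aff
  rw [Int.toNat_of_nonneg]
  have h1 : (2 : ℤ) ≤ a := by exact_mod_cast ha
  have h2 : (2 : ℤ) * b.natAbs + 1 ≤ n := by exact_mod_cast hn
  have h3 : -(b.natAbs : ℤ) ≤ b := by omega
  nlinarith

theorem step_aff {a : ℕ} (ha : 2 ≤ a) (b : ℤ) : Step (aff a b) (a + b.natAbs) (2 * b.natAbs + 1) := by
  refine ⟨by omega, by omega, ?_, ?_, ?_⟩
  · intro m n hm hn h
    have h1 := aff_int ha hm
    have h2 := aff_int ha hn
    rw [h, h2] at h1
    have h3 : (a : ℤ) * n = a * m := by linarith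
    have h4 : (a : ℤ) ≠ 0 := by positivity
    exact_mod_cast (mul_left_cancel₀ h4 h3).symm
  · intro n hn
    have h1 := aff_int ha hn
    have h2 : (2 : ℤ) ≤ a := by exact_mod_cast ha
    have h3 : (2 : ℤ) * b.natAbs + 1 ≤ n := by exact_mod_cast hn
    have h4 : -(b.natAbs : ℤ) ≤ b := by omega
    have h5 : (3 : ℤ) * n ≤ 2 * (aff a b n : ℕ) := by
      rw [h1]
      nlinarith
    exact_mod_cast h5
  · intro n hn
    have h1 := aff_int ha hn
    have h3 : (1 : ℤ) ≤ n := by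
      have : 1 ≤ n := by omega
      exact_mod_cast this
    have h4 : b ≤ (b.natAbs : ℤ) := by omega
    have h5 : ((aff a b n : ℕ) : ℤ) ≤ (a + b.natAbs) * n := by
      rw [h1]
      have : (0 : ℤ) ≤ b.natAbs := by omega
      nlinarith
    exact_mod_cast h5

theorem orbit_all {α : Type*} [Fintype α] (g : α → α) (z : α) (P : α → Prop)
    (h : ∀ i < Fintype.card α, P (g^[i] z)) : ∀ i, P (g^[i] z) := by
  have h1 : ¬ Function.Injective (fun i : Fin (Fintype.card α + 1) => g^[(i : ℕ)] z) := by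
    intro hinj
    have := Fintype.card_le_of_injective _ hinj
    rw [Fintype.card_fin] at this
    omega
  rw [Function.not_injective_iff] at h1
  obtain ⟨i', j', h2, h3⟩ := h1
  have key : ∃ i j : ℕ, i < j ∧ j ≤ Fintype.card α ∧ g^[i] z = g^[j] z := by
    rcases lt_trichotomy (i' : ℕ) (j' : ℕ) with h4 | h4 | h4
    · exact ⟨i', j', h4, by omega, h2⟩
    · exact absurd (Fin.ext h4) h3
    · exact ⟨j', i', h4, by omega, h2.symm⟩
  obtain ⟨i, j, hij, hj, h4⟩ := key
  intro m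
  induction m using Nat.strong_induction_on with
  | _ m ih =>
    by_cases hm : m < Fintype.card α
    · exact h m hm
    · have h5 : m = (m - j) + j := by omega
      rw [h5, Function.iterate_add_apply, ← h4, ← Function.iterate_add_apply]
      exact ih _ (by omega)

theorem open_of_chain {Q a : ℕ} (hQ : 1 ≤ Q) (ha : 2 ≤ a) {b : ℤ} {n : ℕ} (hn : 2 * b.natAbs < n)
    (h : ∀ i < Q, ((aff a b)^[i] n).Coprime Q) : Open Q a b := by
  haveI : NeZero Q := ⟨by omega⟩
  have hf := step_aff ha b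
  have hcast : ∀ m : ℕ, 2 * b.natAbs < m → ∀ i, (((aff a b)^[i] m : ℕ) : ZMod Q) =
      (fun z : ZMod Q => (a : ZMod Q) * z + (b : ZMod Q))^[i] (m : ZMod Q) := by
    intro m hm i
    induction i with
    | zero => rfl
    | succ i ih =>
      rw [Function.iterate_succ_apply', Function.iterate_succ_apply', ← ih]
      have h1 := aff_int ha (n := (aff a b)^[i] m) ((show 2 * b.natAbs + 1 ≤ m by omega).trans (hf.ge i (by omega)))
      have h2 : (((aff a b ((aff a b)^[i] m) : ℕ) : ℤ) : ZMod Q) = ((a * ((aff a b)^[i] m : ℕ) + b : ℤ) : ZMod Q) := by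
        rw [h1]
      push_cast at h2
      exact h2
  refine ⟨n, fun m hm hmn i => ?_⟩
  have h1 := orbit_all (fun z : ZMod Q => (a : ZMod Q) * z + (b : ZMod Q)) (n : ZMod Q) IsUnit (fun i hi => by
    rw [ZMod.card] at hi
    rw [← hcast n hn i, ZMod.isUnit_iff_coprime]
    exact h i hi) i
  have h2 : (m : ZMod Q) = (n : ZMod Q) := (ZMod.natCast_eq_natCast_iff' m n Q).2 hmn
  rw [← h2, ← hcast m hm i, ZMod.isUnit_iff_coprime] at h1
  exact h1

/-- Chains of the first kind: the class `-1`. -/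
theorem open_first {Q : ℕ} (hQ : 1 ≤ Q) : Open Q 2 1 := by
  refine ⟨Q - 1, fun n hn h i => ?_⟩
  have hf := step_aff (le_refl 2) 1
  have h1 : ∀ i, Q ∣ (aff 2 1)^[i] n + 1 := by
    intro i
    induction i with
    | zero =>
      show Q ∣ n + 1
      have h2 : n ≡ Q - 1 [MOD Q] := h
      have h3 : n + 1 ≡ Q - 1 + 1 [MOD Q] := h2.add_right 1
      rw [Nat.sub_add_cancel hQ] at h3
      exact (Nat.modEq_zero_iff_dvd.1 (h3.trans (Nat.modEq_zero_iff_dvd.2 (dvd_refl Q))))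
    | succ i ih =>
      rw [Function.iterate_succ_apply']
      have h2 := aff_int (le_refl 2) (b := 1) (n := (aff 2 1)^[i] n)
        ((show 2 * (1 : ℤ).natAbs + 1 ≤ n by omega).trans (hf.ge i (by omega)))
      have h3 : aff 2 1 ((aff 2 1)^[i] n) + 1 = 2 * ((aff 2 1)^[i] n + 1) := by
        push_cast at h2
        omega
      rw [h3]
      exact ih.mul_left 2
  have h2 := h1 i
  rw [Nat.coprime_iff_gcd_eq_one]
  have h3 : Nat.gcd ((aff 2 1)^[i] n) Q ∣ (aff 2 1)^[i] n + 1 := (Nat.gcd_dvd_right _ _).trans h2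
  have h4 : Nat.gcd ((aff 2 1)^[i] n) Q ∣ (aff 2 1)^[i] n := Nat.gcd_dvd_left _ _
  exact Nat.dvd_one.1 ((Nat.dvd_add_right h4).1 h3)

/-- Chains of the second kind: the class `1`. -/
theorem open_second {Q : ℕ} : Open Q 2 (-1) := by
  refine ⟨1, fun n hn h i => ?_⟩
  have hf := step_aff (le_refl 2) (-1)
  have h1 : ∀ i, (aff 2 (-1))^[i] n ≡ 1 [MOD Q] := by
    intro i
    induction i with
    | zero => exact h
    | succ i ih =>
      rw [Function.iterate_succ_apply']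
      have h2 := aff_int (le_refl 2) (b := -1) (n := (aff 2 (-1))^[i] n)
        ((show 2 * (-1 : ℤ).natAbs + 1 ≤ n by omega).trans (hf.ge i (by omega)))
      have h3 : aff 2 (-1) ((aff 2 (-1))^[i] n) + 1 = 2 * ((aff 2 (-1))^[i] n) := by
        push_cast at h2
        omega
      have h4 : 2 * ((aff 2 (-1))^[i] n) ≡ 2 * 1 [MOD Q] := ih.mul_left 2
      rw [← h3] at h4
      exact Nat.ModEq.add_right_cancel' 1 h4
  have h2 : Nat.gcd ((aff 2 (-1))^[i] n) Q = Nat.gcd 1 Q := (h1 i).gcd_eq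
  rw [Nat.coprime_iff_gcd_eq_one, h2]
  exact Nat.gcd_one_left Q

theorem law {Ω : Type*} [MeasurableSpace Ω] {μ : Measure Ω} [IsProbabilityMeasure μ] {A : Ω → Set ℕ} {Q : ℕ}
    (hA : IsModel μ (level Q) A) (hQ : 1 ≤ Q) {a : ℕ} (ha : 2 ≤ a) {b : ℤ} (hO : Open Q a b) :
    ∀ᵐ ω ∂μ, Law (A ω) Q a b := by
  classical
  obtain ⟨r, hr⟩ := hO
  have hf := step_aff ha b
  have hg : ∀ᶠ n : ℕ in atTop, n % Q = r % Q → ∀ i, ((aff a b)^[i] n).Coprime Q := by
    filter_upwards [eventually_gt_atTop (2 * b.natAbs)] with n hn h i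
    exact hr n hn h i
  have small : ∀ δ : ℝ, 0 < δ → ∃ j : ℕ, 1 / ((j : ℝ) + 2) ≤ δ := by
    intro δ hδ
    obtain ⟨j, hj⟩ := exists_nat_one_div_lt hδ
    refine ⟨j, le_trans (one_div_le_one_div_of_le (by positivity) (by linarith)) hj.le⟩
  have h1 : ∀ᵐ ω ∂μ, ∀ j : ℕ, ∀ᶠ x : ℕ in atTop, ∀ n k : ℕ, 2 * b.natAbs + 1 ≤ n → n ≤ x →
      (∀ i < k, (aff a b)^[i] n ∈ A ω) → (k : ℝ) ≤ GG (-Real.log (qq Q) - 1 / ((j : ℝ) + 2)) (Real.log x) :=
    ae_all_iff.2 (fun j => chain_upper hA hQ hf (by positivity))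
  have h2 : ∀ᵐ ω ∂μ, ∀ j : ℕ, ∀ᶠ x : ℕ in atTop, ∃ n k : ℕ, 2 * b.natAbs + 1 ≤ n ∧ n ≤ x ∧
      GG (-Real.log (qq Q) + 1 / ((j : ℝ) + 2)) (Real.log x) ≤ k ∧ ∀ i < k, (aff a b)^[i] n ∈ A ω :=
    ae_all_iff.2 (fun j => chain_lower hA hQ hf hg (by positivity))
  have h3 : ∀ᵐ ω ∂μ, ∀ q : ℚ, ∀ j : ℕ, 0 < (q : ℝ) → (q : ℝ) < 1 → ∀ᶠ x : ℕ in atTop,
      (x : ℝ) ^ (1 - (q : ℝ) - 1 / ((j : ℝ) + 2)) ≤
        num ((Finset.range (x + 1)).filter (fun n => 2 * b.natAbs + 1 ≤ n)) (fun n => all A (orb (aff a b) n (kk q n))) ω := by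
    rw [ae_all_iff]
    intro q
    rw [ae_all_iff]
    intro j
    by_cases hq : 0 < (q : ℝ) ∧ (q : ℝ) < 1
    · filter_upwards [spec_lower hA hQ hf hg hq.1 hq.2 (show (0 : ℝ) < 1 / ((j : ℝ) + 2) by positivity)] with ω hω _ _
      exact hω
    · filter_upwards with ω u v
      exact absurd ⟨u, v⟩ hq
  have h4 : ∀ᵐ ω ∂μ, ∀ q : ℚ, ∀ j : ℕ, 0 < (q : ℝ) → (q : ℝ) < 1 → ∀ᶠ x : ℕ in atTop,
      num (Finset.range (x + 1)) (fun n => all A (orb (aff a b) n (kk q n))) ω ≤
        (x : ℝ) ^ (1 - (q : ℝ) + 1 / ((j : ℝ) + 2)) := by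
    rw [ae_all_iff]
    intro q
    rw [ae_all_iff]
    intro j
    by_cases hq : 0 < (q : ℝ) ∧ (q : ℝ) < 1
    · filter_upwards [spec_upper hA hQ hf hq.1 hq.2.le (show (0 : ℝ) < 1 / ((j : ℝ) + 2) by positivity)] with ω hω _ _
      exact hω
    · filter_upwards with ω u v
      exact absurd ⟨u, v⟩ hq
  have hll : ∀ c : ℝ, ∀ᶠ x : ℕ in atTop, 0 < Real.log (Real.log x) + c := by
    intro c
    filter_upwards [Pool.Agent.Q120.AD.hl.eventually (loglog (c := c) 1)] with x hx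
    linarith
  filter_upwards [h1, h2, h3, h4] with ω g1 g2 g3 g4
  refine ⟨?_, ?_, ?_⟩
  · intro ε hε
    obtain ⟨j, hj⟩ := small ε hε
    filter_upwards [g1 j, hll (-Real.log (qq Q) - 1 / ((j : ℝ) + 2))] with x h5 h6 n k hn hnx hch
    have h7 := h5 n k (by omega) hnx hch
    unfold GG at h7
    rw [le_div_iff₀ h6] at h7
    refine le_trans ?_ h7
    refine mul_le_mul_of_nonneg_left ?_ (Nat.cast_nonneg _)
    unfold qq
    linarith
  · intro ε hε
    obtain ⟨j, hj⟩ := small ε hε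
    filter_upwards [g2 j, hll (-Real.log (qq Q) + 1 / ((j : ℝ) + 2))] with x h5 h6
    obtain ⟨n, k, e1, e2, e3, e4⟩ := h5
    refine ⟨n, k, by omega, e2, e4, ?_⟩
    unfold GG at e3
    rw [div_le_iff₀ h6] at e3
    refine e3.trans ?_
    refine mul_le_mul_of_nonneg_left ?_ (Nat.cast_nonneg _)
    unfold qq
    linarith
  · intro θ hθ hθ1 δ₀ hδ₀
    obtain ⟨δ, hδd⟩ : ∃ δ, δ = min δ₀ (1 - θ) := ⟨_, rfl⟩
    have hδ : 0 < δ := by rw [hδd]; exact lt_min hδ₀ (by linarith)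
    have hδ1 : δ ≤ δ₀ := by rw [hδd]; exact min_le_left _ _
    have hδ2 : δ ≤ 1 - θ := by rw [hδd]; exact min_le_right _ _
    obtain ⟨q, hq1, hq2⟩ := exists_rat_btwn (show θ < min 1 (θ + δ / 2) by rw [lt_min_iff]; constructor <;> linarith)
    have hq3 : (q : ℝ) < 1 := lt_of_lt_of_le hq2 (min_le_left _ _)
    have hq4 : (q : ℝ) < θ + δ / 2 := lt_of_lt_of_le hq2 (min_le_right _ _)
    obtain ⟨p, hp1, hp2⟩ := exists_rat_btwn (show max 0 (θ - δ / 2) < θ by rw [max_lt_iff]; constructor <;> linarith)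
    have hp3 : 0 < (p : ℝ) := lt_of_le_of_lt (le_max_left _ _) hp1
    have hp4 : θ - δ / 2 < (p : ℝ) := lt_of_le_of_lt (le_max_right _ _) hp1
    obtain ⟨j, hj⟩ := small (δ / 4) (by linarith)
    -- the small n
    have hsm : ∀ᶠ n : ℕ in atTop, 0 ≤ Real.log n / Real.log (Real.log n) := by
      filter_upwards [hll 0] with n hn
      rw [add_zero] at hn
      exact div_nonneg (Real.log_natCast_nonneg n) hn.le
    obtain ⟨N, hN⟩ := eventually_atTop.1 hsm
    have hxδ : ∀ᶠ x : ℕ in atTop, 2 * ((N : ℝ) + 2) ≤ (x : ℝ) ^ (δ / 4) := by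
      have := (tendsto_rpow_atTop (show 0 < δ / 4 by linarith)).comp tendsto_natCast_atTop_atTop
      exact this.eventually_ge_atTop _
    filter_upwards [g3 q j (by linarith) hq3, g4 p j hp3 (by linarith), eventually_ge_atTop 1, hxδ,
      eventually_ge_atTop 1] with x hx hy hx1 hxN _
    have hx1' : (1 : ℝ) ≤ x := by exact_mod_cast hx1
    have hx0 : (0 : ℝ) < x := by linarith
    have hN0 : (0 : ℝ) ≤ N := Nat.cast_nonneg N
    have hfin : Set.Finite {n : ℕ | 2 * b.natAbs < n ∧ n ≤ x ∧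
        ∃ k : ℕ, θ * (Real.log n / Real.log (Real.log n)) ≤ k ∧ Chain (A ω) (aff a b) n k} :=
      (Set.finite_le_nat x).subset (fun d hd => hd.2.1)
    constructor
    · -- all but N of the counted n are in the set
      rw [num_card] at hx
      have hsub : ((((Finset.range (x + 1)).filter (fun n => 2 * b.natAbs + 1 ≤ n)).filter
          (fun n => ω ∈ all A (orb (aff a b) n (kk q n))) : Finset ℕ) : Set ℕ) ⊆
          {n : ℕ | 2 * b.natAbs < n ∧ n ≤ x ∧
            ∃ k : ℕ, θ * (Real.log n / Real.log (Real.log n)) ≤ k ∧ Chain (A ω) (aff a b) n k} ∪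
          (Finset.range N : Set ℕ) := by
        intro n hn
        rw [Finset.mem_coe, Finset.mem_filter, Finset.mem_filter, Finset.mem_range] at hn
        by_cases hnN : n < N
        · exact Or.inr (by rw [Finset.coe_range]; exact hnN)
        · refine Or.inl ⟨by omega, by omega, kk q n, ?_, fun i hi => hn.2 _ (mem_orb.2 ⟨i, hi, rfl⟩)⟩
          have e1 := hN n (by omega)
          refine (mul_le_mul_of_nonneg_right hq1.le e1).trans ?_
          exact Nat.le_ceil _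
      have e1 := Set.ncard_le_ncard hsub (hfin.union (Finset.finite_toSet _))
      have e2 := Set.ncard_union_le {n : ℕ | 2 * b.natAbs < n ∧ n ≤ x ∧
            ∃ k : ℕ, θ * (Real.log n / Real.log (Real.log n)) ≤ k ∧ Chain (A ω) (aff a b) n k} (Finset.range N : Set ℕ)
      rw [Set.ncard_coe_finset] at e1
      rw [Set.ncard_coe_finset, Finset.card_range] at e2
      have e3 := e1.trans e2
      have e4 : (x : ℝ) ^ (1 - (q : ℝ) - 1 / ((j : ℝ) + 2)) ≤ (Set.ncard {n : ℕ | 2 * b.natAbs < n ∧ n ≤ x ∧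
            ∃ k : ℕ, θ * (Real.log n / Real.log (Real.log n)) ≤ k ∧ Chain (A ω) (aff a b) n k} : ℝ) + N := by
        refine hx.trans ?_
        exact_mod_cast e3
      have e5 : (x : ℝ) ^ (1 - θ - δ) * (x : ℝ) ^ (δ / 4) ≤ (x : ℝ) ^ (1 - (q : ℝ) - 1 / ((j : ℝ) + 2)) := by
        rw [← Real.rpow_add hx0]
        exact Real.rpow_le_rpow_of_exponent_le hx1' (by linarith)
      have e6 : (1 : ℝ) ≤ (x : ℝ) ^ (1 - θ - δ) := Real.one_le_rpow hx1' (by linarith)
      have e7 : (x : ℝ) ^ (1 - θ - δ₀) ≤ (x : ℝ) ^ (1 - θ - δ) := Real.rpow_le_rpow_of_exponent_le hx1' (by linarith)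
      nlinarith
    · rw [num_card] at hy
      have hsub : {n : ℕ | 2 * b.natAbs < n ∧ n ≤ x ∧
            ∃ k : ℕ, θ * (Real.log n / Real.log (Real.log n)) ≤ k ∧ Chain (A ω) (aff a b) n k} ⊆
          (((Finset.range (x + 1)).filter (fun n => ω ∈ all A (orb (aff a b) n (kk p n))) : Finset ℕ) : Set ℕ) ∪
          (Finset.range N : Set ℕ) := by
        rintro n ⟨e1, e2, k, e3, e4⟩
        by_cases hnN : n < N
        · exact Or.inr (by rw [Finset.coe_range]; exact hnN)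
        · left
          rw [Finset.mem_coe, Finset.mem_filter, Finset.mem_range]
          refine ⟨by omega, fun m hm => ?_⟩
          rw [mem_orb] at hm
          obtain ⟨i, hi, rfl⟩ := hm
          refine e4 i (lt_of_lt_of_le hi ?_)
          unfold kk
          rw [Nat.ceil_le]
          exact (mul_le_mul_of_nonneg_right hp2.le (hN n (by omega))).trans e3
      have e1 := Set.ncard_le_ncard hsub ((Finset.finite_toSet _).union (Finset.finite_toSet _))
      have e2 := Set.ncard_union_le ((((Finset.range (x + 1)).filter (fun n => ω ∈ all A (orb (aff a b) n (kk p n))) :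
        Finset ℕ) : Set ℕ)) (Finset.range N : Set ℕ)
      rw [Set.ncard_coe_finset, Set.ncard_coe_finset, Finset.card_range] at e2
      have e3 := e1.trans e2
      have e4 : (Set.ncard {n : ℕ | 2 * b.natAbs < n ∧ n ≤ x ∧
            ∃ k : ℕ, θ * (Real.log n / Real.log (Real.log n)) ≤ k ∧ Chain (A ω) (aff a b) n k} : ℝ) ≤
          (((Finset.range (x + 1)).filter (fun n => ω ∈ all A (orb (aff a b) n (kk p n)))).card : ℝ) + N := by
        exact_mod_cast e3
      refine e4.trans ?_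
      have e5 : (x : ℝ) ^ (1 - (p : ℝ) + 1 / ((j : ℝ) + 2)) * (x : ℝ) ^ (δ / 4) ≤ (x : ℝ) ^ (1 - θ + δ₀) := by
        rw [← Real.rpow_add hx0]
        exact Real.rpow_le_rpow_of_exponent_le hx1' (by linarith)
      have e6 : (1 : ℝ) ≤ (x : ℝ) ^ (1 - (p : ℝ) + 1 / ((j : ℝ) + 2)) := Real.one_le_rpow hx1' (by
        have : (0 : ℝ) < 1 / ((j : ℝ) + 2) := by positivity
        linarith)
      nlinarith

/-- **Existence of the models, and the dichotomy for all affine maps.** -/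
theorem result : (∀ Q : ℕ, IsModel (prodMeasure (level Q)) (level Q) (trueSet (ι := ℕ))) ∧
    (∀ Q : ℕ, 1 ≤ Q → Open Q 2 1 ∧ Open Q 2 (-1)) ∧
    ∀ (Ω : Type) (_ : MeasurableSpace Ω) (μ : Measure Ω) (_ : IsProbabilityMeasure μ) (A : Ω → Set ℕ) (Q : ℕ),
      1 ≤ Q → IsModel μ (level Q) A → ∀ᵐ ω ∂μ, ∀ (a : ℕ) (b : ℤ), 2 ≤ a →
        (Open Q a b → Law (A ω) Q a b) ∧
        (¬ Open Q a b → ∀ n k : ℕ, 2 * b.natAbs < n → Chain (A ω) (aff a b) n k → k ≤ Q) := by
  refine ⟨fun Q => isModel (level Q) (level_nonneg Q) (level_le_one Q), fun Q hQ => ⟨open_first hQ, open_second⟩, ?_⟩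
  intro Ω _ μ _ A Q hQ hA
  have h1 : ∀ᵐ ω ∂μ, ∀ m : ℕ, ¬ m.Coprime Q → m ∉ A ω := by
    rw [ae_all_iff]
    intro m
    by_cases hm : m.Coprime Q
    · filter_upwards with ω h
      exact absurd hm h
    · have h2 : μ.real {ω | m ∈ A ω} = 0 := by
        rw [hA.prob m]
        unfold level
        rw [if_neg hm]
      have h3 : μ {ω | m ∈ A ω} = 0 := (measureReal_eq_zero_iff (measure_ne_top _ _)).1 h2
      have h4 : ∀ᵐ ω ∂μ, ω ∉ {ω | m ∈ A ω} := measure_eq_zero_iff_ae_notMem.1 h3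
      filter_upwards [h4] with ω hω _
      exact hω
  have h2 : ∀ᵐ ω ∂μ, ∀ (a : ℕ) (b : ℤ), 2 ≤ a → Open Q a b → Law (A ω) Q a b := by
    rw [ae_all_iff]
    intro a
    rw [ae_all_iff]
    intro b
    by_cases h : 2 ≤ a ∧ Open Q a b
    · filter_upwards [law hA hQ h.1 h.2] with ω hω _ _
      exact hω
    · filter_upwards with ω u v
      exact absurd ⟨u, v⟩ h
  filter_upwards [h1, h2] with ω g1 g2 a b ha
  refine ⟨g2 a b ha, fun hno n k hn hch => ?_⟩
  by_contra hcon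
  push Not at hcon
  apply hno
  refine open_of_chain hQ ha hn (fun i hi => ?_)
  by_contra h5
  exact g1 _ h5 (hch i (by omega))

end Pool.Agent.Results.MP_c183ae_nt.LongestChains
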