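import Pool.Agent.Q175.NP.Gen

/-!
# Almost prime Cunningham chains of both kinds and every length in narrow progressions

The numbers `m - 1, 2m - 1, 4m - 1, ...` form a chain of the first kind, `m + 1, 2m + 1, 4m + 1, ...` a chain of the second kind.
Let `K` be the set of the kinds considered (one of them or both at the same `m`).  For every length `k` there is `t` such that the
`m` at which the first `k` terms of the chains of the kinds in `K` have no prime factor `≤ X ^ (1/t)` have at least the expected order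
of magnitude in all intervals of length `θ X`, every subset of positive relative density contains arithmetic progressions of any length
whose difference is at most a power of `log X`, and for every colouring there are such progressions of one colour along which the
number of the prime factors of every term of the chains is constant.
-/

set_option autoImplicit false

namespace Pool.Agent.Results.MP_c183ae_nt.NarrowProgressions

open Finset
open Pool.Agent.Q253.Thin (VZ_low)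
open Pool.Agent.Q175.NP

/-- the `i`-th term (`i = 0, 1, ...`) of the chain of the first kind starting at `m - 1` (`σ = false`), of the second kind starting
at `m + 1` (`σ = true`) -/
def term (i : ℕ) (σ : Bool) (m : ℕ) : ℕ := if σ then 2 ^ i * m + 1 else 2 ^ i * m - 1

open Classical in
/-- the `m` of `(A, B]` such that the terms `0, ..., k - 1` of the chains of the kinds in `K` have no prime factor `≤ X ^ (1/t)` -/
noncomputable def G (K : Finset Bool) (k t X A B : ℕ) : Finset ℕ :=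
  (Ioc A B).filter (fun m => ∀ i < k, ∀ σ ∈ K, ∀ q : ℕ, q.Prime → q ∣ term i σ m → (X : ℝ) ^ (1 / (t : ℝ)) < q)

lemma mem_G {K : Finset Bool} {k t X A B m : ℕ} : m ∈ G K k t X A B ↔ (A < m ∧ m ≤ B) ∧
    ∀ i < k, ∀ σ ∈ K, ∀ q : ℕ, q.Prime → q ∣ term i σ m → (X : ℝ) ^ (1 / (t : ℝ)) < q := by
  classical
  unfold G
  rw [mem_filter, mem_Ioc]

/-- the forms -/
def ca (K : Finset Bool) (k : ℕ) : Fin k × K → ℤ := fun x => 2 ^ (x.1 : ℕ)
def cb (K : Finset Bool) (k : ℕ) : Fin k × K → ℤ := fun x => if x.2.1 then 1 else -1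

lemma term_eq (K : Finset Bool) (k : ℕ) (x : Fin k × K) {m : ℕ} (hm : 1 ≤ m) :
    ((term x.1 x.2.1 m : ℕ) : ℤ) = ca K k x * m + cb K k x := by
  unfold term ca cb
  cases x.2.1 with
  | true =>
    simp only [if_true]
    push_cast
    ring
  | false =>
    simp only [Bool.false_eq_true, if_false]
    have h1 : 1 ≤ 2 ^ (x.1 : ℕ) * m := Nat.one_le_iff_ne_zero.2 (by positivity)
    rw [Nat.cast_sub h1]
    push_cast
    ring

lemma adm (K : Finset Bool) (k : ℕ) : Adm (ca K k) (cb K k) where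
  cop x := by
    unfold ca cb
    cases x.2.1 with
    | true =>
      simp only [if_true]
      exact isCoprime_one_right
    | false =>
      simp only [Bool.false_eq_true, if_false]
      exact ⟨0, -1, by ring⟩
  loc p hp := by
    have hp1 : 1 < p := hp.one_lt
    have hnot : ¬ (p : ℤ) ∣ 1 := by
      intro h
      have : p ∣ 1 := by exact_mod_cast h
      exact absurd (Nat.le_of_dvd one_pos this) (by omega)
    refine ⟨0, fun x => ?_⟩
    unfold ca cb
    cases x.2.1 with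
    | true =>
      simp only [if_true, Nat.cast_zero, mul_zero, zero_add]
      exact hnot
    | false =>
      simp only [Bool.false_eq_true, if_false, Nat.cast_zero, mul_zero, zero_add]
      intro h
      exact hnot ((dvd_neg).1 h)

lemma G_eq (K : Finset Bool) (k t X A B : ℕ) : G K k t X A B = Gf t X A B (ca K k) (cb K k) := by
  ext m
  rw [mem_G, mem_Gf]
  refine and_congr_right fun hm => ?_
  constructor
  · intro h x q hq hqd
    apply h x.1 x.1.2 x.2.1 x.2.2 q hq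
    rw [← term_eq K k x (by omega)] at hqd
    exact_mod_cast hqd
  · intro h i hi σ hσ q hq hqd
    apply h (⟨i, hi⟩, ⟨σ, hσ⟩) q hq
    rw [← term_eq K k (⟨i, hi⟩, ⟨σ, hσ⟩) (by omega)]
    exact_mod_cast hqd

/-- **Almost prime Cunningham chains in narrow progressions.** -/
theorem result : ∀ (K : Finset Bool) (k : ℕ), K.Nonempty → 1 ≤ k → ∃ t : ℕ, 1 ≤ t ∧
    (∃ c : ℝ, 0 < c ∧ ∀ θ : ℝ, 0 < θ → ∃ X₀ : ℕ, ∀ X : ℕ, X₀ ≤ X → ∀ A B : ℕ, θ * X ≤ (B : ℝ) - A →
      c * (((B : ℝ) - A) / Real.log X ^ (k * K.card)) ≤ ((G K k t X A B).card : ℝ)) ∧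
    (∀ (L : ℕ) (θ ε : ℝ), 0 < θ → 0 < ε → ∃ D X₀ : ℕ, ∀ X : ℕ, X₀ ≤ X → ∀ A B : ℕ, θ * X ≤ (B : ℝ) - A → B ≤ X →
      ∀ S ⊆ G K k t X A B, ε * ((G K k t X A B).card : ℝ) ≤ S.card →
      ∃ m d : ℕ, 1 ≤ d ∧ (d : ℝ) ≤ Real.log X ^ D ∧ ∀ j < L, m + j * d ∈ S) ∧
    (∀ (L c : ℕ) (θ : ℝ), 1 ≤ c → 0 < θ → ∃ D X₀ : ℕ, ∀ X : ℕ, X₀ ≤ X → ∀ A B : ℕ, 2 ≤ A →
      θ * X ≤ (B : ℝ) - A → B ≤ X → ∀ col : ℕ → Fin c,
      ∃ s : ℕ → Bool → ℕ, ∃ o : Fin c, ∃ m d : ℕ,
        1 ≤ d ∧ (d : ℝ) ≤ Real.log X ^ D ∧ ∀ j < L, A < m + j * d ∧ m + j * d ≤ B ∧ col (m + j * d) = o ∧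
        ∀ i < k, ∀ σ ∈ K, 1 ≤ s i σ ∧ s i σ ≤ 2 * t ∧ (term i σ (m + j * d)).primeFactorsList.length = s i σ ∧
          ∀ q : ℕ, q.Prime → q ∣ term i σ (m + j * d) → (X : ℝ) ^ (1 / (t : ℝ)) < q) := by
  classical
  intro K k hK hk
  have : Nonempty (Fin k × K) := ⟨(⟨0, hk⟩, ⟨hK.choose, hK.choose_spec⟩)⟩
  have hcard : Fintype.card (Fin k × K) = k * K.card := by
    rw [Fintype.card_prod, Fintype.card_fin, Fintype.card_coe]
  have hpos : 1 ≤ k * K.card := Nat.mul_pos hk hK.card_pos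
  obtain ⟨t, ht, ⟨c, hc, h1⟩, h2, h3⟩ := main (Fin k × K)
  refine ⟨t, ht, ?_, ?_, ?_⟩
  · obtain ⟨c', hc', hlow⟩ := VZ_low (k * K.card) hpos
    refine ⟨c * c', by positivity, fun θ hθ => ?_⟩
    obtain ⟨X₀, H⟩ := h1 θ hθ
    refine ⟨max X₀ 2, fun X hX A B hAB => ?_⟩
    have h4 := H X ((le_max_left _ _).trans hX) _ _ (adm K k) A B hAB
    have hs := sysL (adm K k)
    rw [hcard] at hs
    have h5 := hlow X ((le_max_right _ _).trans hX) _ hs
    rw [VV_eq] at h5
    rw [G_eq]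
    refine le_trans ?_ h4
    have hBA : 0 ≤ (B : ℝ) - A := le_trans (by positivity) hAB
    unfold VL
    calc c * c' * (((B : ℝ) - A) / Real.log X ^ (k * K.card)) =
          c * (((B : ℝ) - A) * (c' / Real.log X ^ (k * K.card))) := by ring
      _ ≤ _ := by gcongr
  · intro L θ ε hθ hε
    obtain ⟨D, X₀, H⟩ := h2 L θ ε hθ hε
    refine ⟨D, X₀, fun X hX A B hAB hBX S hS hSc => ?_⟩
    rw [G_eq] at hS hSc
    exact H X hX _ _ (adm K k) A B hAB hBX S hS hSc
  · intro L c θ hc hθ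
    obtain ⟨D, X₀, H⟩ := h3 2 L c θ hc hθ
    refine ⟨D, max X₀ (2 ^ (k + 1)), fun X hX A B hA hAB hBX col => ?_⟩
    have hX2 : 2 ^ (k + 1) ≤ X := (le_max_right _ _).trans hX
    obtain ⟨s, hs, o, m, d, hd1, hd2, hd3⟩ := H X ((le_max_left _ _).trans hX) _ _ (adm K k) A B hAB hBX (by
      intro x n hn1 hn2
      rw [← term_eq K k x (by omega)]
      have hi : 2 ^ (x.1 : ℕ) ≤ 2 ^ k := Nat.pow_le_pow_right (by norm_num) x.1.2.le
      have hi1 : 1 ≤ 2 ^ (x.1 : ℕ) := Nat.one_le_two_pow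
      have hX1 : 2 ≤ X := le_trans (by rw [pow_succ]; have := Nat.one_le_two_pow (n := k); omega) hX2
      have h0 : 1 * n ≤ 2 ^ (x.1 : ℕ) * n := Nat.mul_le_mul_right _ hi1
      have h6 : 2 ^ (x.1 : ℕ) * n ≤ 2 ^ k * X := Nat.mul_le_mul hi (by omega)
      have h7 : 2 * (2 ^ k * X) ≤ X * X := by
        calc 2 * (2 ^ k * X) = 2 ^ (k + 1) * X := by ring
          _ ≤ X * X := Nat.mul_le_mul_right _ hX2
      have h8 : X ^ 2 = X * X := sq X
      have h9 : 1 ≤ 2 ^ k * X := Nat.mul_pos Nat.one_le_two_pow (by omega)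
      have hlow : 2 ≤ term x.1 x.2.1 n := by
        unfold term
        split_ifs <;> omega
      have hupp : term x.1 x.2.1 n ≤ X ^ 2 := by
        unfold term
        split_ifs <;> omega
      exact ⟨by exact_mod_cast hlow, by exact_mod_cast hupp⟩) col
    refine ⟨fun i σ => if h : i < k ∧ σ ∈ K then s (⟨i, h.1⟩, ⟨σ, h.2⟩) else 0, o, m, d, hd1, hd2, fun j hj => ?_⟩
    obtain ⟨g1, g2, g3, g4⟩ := hd3 j hj
    refine ⟨g1, g2, g3, fun i hi σ hσ => ?_⟩
    beta_reduce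
    rw [dif_pos (⟨hi, hσ⟩ : i < k ∧ σ ∈ K)]
    have hfv : fv (ca K k) (cb K k) (⟨i, hi⟩, ⟨σ, hσ⟩) (m + j * d) = term i σ (m + j * d) := by
      unfold fv
      rw [← term_eq K k (⟨i, hi⟩, ⟨σ, hσ⟩) (by omega)]
      simp
    obtain ⟨g5, g6⟩ := g4 (⟨i, hi⟩, ⟨σ, hσ⟩)
    rw [hfv] at g5 g6
    obtain ⟨g7, g8⟩ := hs (⟨i, hi⟩, ⟨σ, hσ⟩)
    exact ⟨g7, g8, g5, g6⟩

end Pool.Agent.Results.MP_c183ae_nt.NarrowProgressions
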